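import Pool.Agent.W710.DP.Stm1

/-!
Project DP (helper710), subtask DP-EZE: supports and evaluation of the Eilenberg-Zilber product.
-/

set_option autoImplicit false

namespace Pool.Agent.W304.DP

open Pool.Agent.W710.DP Finsupp

/-! ### Generalities on chains -/

theorem pr_apply {Z : Type} (A : List Z → ZMod 2) (z : List Z →₀ ZMod 2) :
    pr A z = z.sum (fun t c => c * A t) := by
  unfold pr
  rw [Finsupp.linearCombination_apply]
  rfl

theorem pr_single {Z : Type} (A : List Z → ZMod 2) (t : List Z) (c : ZMod 2) :
    pr A (Finsupp.single t c) = c * A t := by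
  unfold pr
  rw [Finsupp.linearCombination_single]
  rfl

theorem pr_congr {Z : Type} {A B : List Z → ZMod 2} {z : List Z →₀ ZMod 2}
    (h : ∀ t ∈ z.support, A t = B t) : pr A z = pr B z := by
  rw [pr_apply, pr_apply]
  exact Finsupp.sum_congr (fun t ht => by rw [h t ht])

theorem pr_smul_fun {Z : Type} (k : ZMod 2) (A : List Z → ZMod 2) (z : List Z →₀ ZMod 2) :
    pr (fun t => k * A t) z = k * pr A z := by
  rw [pr_apply, pr_apply, Finsupp.sum, Finsupp.sum, Finset.mul_sum]
  exact Finset.sum_congr rfl (fun t _ => by ring)

theorem pr_zero_fun {Z : Type} {A : List Z → ZMod 2} {z : List Z →₀ ZMod 2}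
    (h : ∀ t ∈ z.support, A t = 0) : pr A z = 0 := by
  rw [pr_apply]
  exact Finset.sum_eq_zero (fun t ht => by simp only [h t ht, mul_zero])

theorem pr_mapDomain {Z Y : Type} (A : List Y → ZMod 2) (f : List Z → List Y)
    (z : List Z →₀ ZMod 2) : pr A (z.mapDomain f) = pr (fun t => A (f t)) z := by
  unfold pr
  rw [Finsupp.linearCombination_mapDomain]
  rfl

/-! ### The Eilenberg-Zilber product -/

variable {X Y : Type}

theorem ez_nil_left (t : List Y) : ez ([] : List X) t = 0 := by
  rw [ez]

theorem ez_nil_right (s : List X) : ez s ([] : List Y) = 0 := by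
  cases s with
  | nil => rw [ez]
  | cons x s => rw [ez]

theorem ez_one (x : X) (y : Y) : ez [x] [y] = Finsupp.single [(x, y)] 1 := by
  rw [ez]

theorem ez_cons (x : X) (s : List X) (y : Y) (t : List Y) (h : s ≠ [] ∨ t ≠ []) :
    ez (x :: s) (y :: t) =
      (ez s (y :: t) + ez (x :: s) t).mapDomain (fun u => (x, y) :: u) := by
  rw [ez]
  intro h1 h2
  rcases h with h | h
  · exact h h1
  · exact h h2

theorem ez_supp_aux (n : ℕ) : ∀ (s : List X) (t : List Y), s.length + t.length = n →
    ∀ u ∈ (ez s t).support,
    u.length + 1 = s.length + t.length ∧ (∀ p ∈ u, p.1 ∈ s ∧ p.2 ∈ t) ∧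
    ∀ x y s' t', s = x :: s' → t = y :: t' → ∃ v, u = (x, y) :: v := by
  induction n using Nat.strong_induction_on with
  | _ n ih =>
    intro s t hn u hu
    rcases s with _ | ⟨x, s⟩
    · rw [ez_nil_left] at hu
      simp at hu
    rcases t with _ | ⟨y, t⟩
    · rw [ez_nil_right] at hu
      simp at hu
    by_cases h : s ≠ [] ∨ t ≠ []
    · rw [ez_cons x s y t h] at hu
      classical
      have hu1 := Finsupp.mapDomain_support hu
      rw [Finset.mem_image] at hu1
      obtain ⟨v, hv, rfl⟩ := hu1
      have hv1 := Finsupp.support_add hv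
      rw [Finset.mem_union] at hv1
      simp only [List.length_cons] at hn ⊢
      refine ⟨?_, ?_, ?_⟩
      · rcases hv1 with hv1 | hv1
        · have := (ih _ (by simp only [List.length_cons]; omega) s (y :: t) rfl v hv1).1
          simp only [List.length_cons] at this
          omega
        · have := (ih _ (by simp only [List.length_cons]; omega) (x :: s) t rfl v hv1).1
          simp only [List.length_cons] at this
          omega
      · intro p hp
        rw [List.mem_cons] at hp
        rcases hp with rfl | hp
        · exact ⟨List.mem_cons_self, List.mem_cons_self⟩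
        · rcases hv1 with hv1 | hv1
          · have := (ih _ (by simp only [List.length_cons]; omega) s (y :: t) rfl v hv1).2.1 p hp
            exact ⟨List.mem_cons_of_mem _ this.1, this.2⟩
          · have := (ih _ (by simp only [List.length_cons]; omega) (x :: s) t rfl v hv1).2.1 p hp
            exact ⟨this.1, List.mem_cons_of_mem _ this.2⟩
      · intro x' y' s' t' hs ht
        cases hs
        cases ht
        exact ⟨v, rfl⟩
    · push Not at h
      obtain ⟨rfl, rfl⟩ := h
      rw [ez_one] at hu
      have h2 := Finsupp.support_single_subset hu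
      rw [Finset.mem_singleton] at h2
      subst h2
      refine ⟨rfl, ?_, ?_⟩
      · intro p hp
        rw [List.mem_singleton] at hp
        subst hp
        exact ⟨List.mem_cons_self, List.mem_cons_self⟩
      · intro x' y' s' t' hs ht
        cases hs
        cases ht
        exact ⟨[], rfl⟩

/-- the functions on the product -/
def HH (h : List (X → ZMod 2)) (k : List (Y → ZMod 2)) : List (X × Y → ZMod 2) :=
  h.map (fun f (p : X × Y) => f p.1) ++ k.map (fun f (p : X × Y) => f p.2)

theorem ev_nil {Z : Type} (t : List Z) : ev ([] : List (Z → ZMod 2)) t = 1 := by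
  rw [ev]

theorem ev_cons {Z : Type} (f : Z → ZMod 2) (hs : List (Z → ZMod 2)) (x y : Z) (t : List Z) :
    ev (f :: hs) (x :: y :: t) = (f x + f y) * ev hs (y :: t) := by
  rw [ev]

theorem ez_eval_aux (n : ℕ) : ∀ (h : List (X → ZMod 2)) (k : List (Y → ZMod 2)) (s : List X)
    (t : List Y), s.length = h.length + 1 → t.length = k.length + 1 → s.length + t.length = n →
    pr (ev (HH h k)) (ez s t) = ev h s * ev k t := by
  induction n using Nat.strong_induction_on with
  | _ n ih =>
    intro h k s t hs ht hn
    rcases s with _ | ⟨x, s⟩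
    · simp at hs
    rcases t with _ | ⟨y, t⟩
    · simp at ht
    simp only [List.length_cons, add_left_inj] at hs ht
    rcases h with _ | ⟨f, h⟩
    · have h1 : s = [] := List.length_eq_zero_iff.1 hs
      subst h1
      rcases k with _ | ⟨g, k⟩
      · have h2 : t = [] := List.length_eq_zero_iff.1 ht
        subst h2
        rw [ez_one, pr_single]
        simp [HH, ev_nil]
      · rcases t with _ | ⟨y', t⟩
        · simp at ht
        simp only [List.length_cons, add_left_inj] at ht
        rw [ez_cons x [] y (y' :: t) (Or.inr (by simp)), ez_nil_left, zero_add, pr_mapDomain]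
        have h3 : pr (fun u => ev (HH ([] : List (X → ZMod 2)) (g :: k)) ((x, y) :: u))
            (ez [x] (y' :: t)) = pr (fun u => (g y + g y') *
              ev (HH ([] : List (X → ZMod 2)) k) u) (ez [x] (y' :: t)) := by
          apply pr_congr
          intro u hu
          obtain ⟨v, rfl⟩ := (ez_supp_aux _ [x] (y' :: t) rfl u hu).2.2 x y' [] t rfl rfl
          change ev ((fun p : X × Y => g p.2) :: HH ([] : List (X → ZMod 2)) k) _ = _
          rw [ev_cons]
        rw [h3, pr_smul_fun, ih _ (by simp only [List.length_cons] at hn ⊢; omega) [] k [x]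
          (y' :: t) rfl (by simp [ht]) rfl, ev_cons, ev_nil]
        ring
    · rcases s with _ | ⟨x', s⟩
      · simp at hs
      simp only [List.length_cons, add_left_inj] at hs
      rw [ez_cons x (x' :: s) y t (Or.inl (by simp)), pr_mapDomain, map_add]
      have h3 : pr (fun u => ev (HH (f :: h) k) ((x, y) :: u))
          (ez (x' :: s) (y :: t)) = pr (fun u => (f x + f x') *
            ev (HH h k) u) (ez (x' :: s) (y :: t)) := by
        apply pr_congr
        intro u hu
        obtain ⟨v, rfl⟩ := (ez_supp_aux _ (x' :: s) (y :: t) rfl u hu).2.2 x' y s t rfl rfl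
        change ev ((fun p : X × Y => f p.1) :: HH h k) _ = _
        rw [ev_cons]
      have h4 : pr (fun u => ev (HH (f :: h) k) ((x, y) :: u))
          (ez (x :: x' :: s) t) = 0 := by
        apply pr_zero_fun
        intro u hu
        rcases t with _ | ⟨y', t⟩
        · rw [ez_nil_right] at hu
          simp at hu
        · obtain ⟨v, rfl⟩ := (ez_supp_aux _ (x :: x' :: s) (y' :: t) rfl u hu).2.2 x y'
            (x' :: s) t rfl rfl
          change ev ((fun p : X × Y => f p.1) :: HH h k) _ = _
          rw [ev_cons, CharTwo.add_self_eq_zero, zero_mul]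
      rw [h3, h4, pr_smul_fun, ih _ (by simp only [List.length_cons] at hn ⊢; omega) h k (x' :: s)
          (y :: t) (by simp [hs]) (by simp [ht]) rfl, ev_cons]
      ring

theorem t_eze : S_eze := by
  refine ⟨fun X Y s t u hu => ?_, fun X Y h k s t hs ht => ?_⟩
  · have := ez_supp_aux _ s t rfl u hu
    exact ⟨this.1, this.2.1⟩
  · exact ez_eval_aux _ h k s t hs ht rfl

end Pool.Agent.W304.DP
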