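import Pool.Agent.W304.DP.Eze

/-!
Project DP (helper710), subtask DP-PROD: products of chains.
-/

set_option autoImplicit false

namespace Pool.Agent.W304.DP

open Pool.Agent.W710.DP Finsupp

variable {X Y : Type}

theorem ezc_sum (z : List X →₀ ZMod 2) (y : List Y →₀ ZMod 2) :
    ezc z y = ∑ s ∈ z.support, ∑ t ∈ y.support, (z s * y t) • ez s t := by
  unfold ezc
  rw [Finsupp.linearCombination_apply, Finsupp.sum, LinearMap.sum_apply]
  refine Finset.sum_congr rfl (fun s _ => ?_)
  rw [LinearMap.smul_apply, Finsupp.linearCombination_apply, Finsupp.sum, Finset.smul_sum]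
  exact Finset.sum_congr rfl (fun t _ => by rw [smul_smul])

theorem ezc_supp {z : List X →₀ ZMod 2} {y : List Y →₀ ZMod 2} {u : List (X × Y)}
    (hu : u ∈ (ezc z y).support) : ∃ s ∈ z.support, ∃ t ∈ y.support, u ∈ (ez s t).support := by
  classical
  rw [ezc_sum] at hu
  have h1 := Finsupp.support_finsetSum hu
  rw [Finset.mem_biUnion] at h1
  obtain ⟨s, hs, h2⟩ := h1
  have h3 := Finsupp.support_finsetSum h2
  rw [Finset.mem_biUnion] at h3
  obtain ⟨t, ht, h4⟩ := h3
  exact ⟨s, hs, t, ht, Finsupp.support_smul h4⟩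

theorem bd_sum (z : List X →₀ ZMod 2) : bd z = ∑ s ∈ z.support, z s • bdL s := by
  unfold bd
  rw [Finsupp.linearCombination_apply, Finsupp.sum]

theorem self_sum (z : List X →₀ ZMod 2) : z = ∑ s ∈ z.support, z s • Finsupp.single s 1 := by
  conv_lhs => rw [← Finsupp.sum_single z]
  rw [Finsupp.sum]
  exact Finset.sum_congr rfl (fun s _ => by rw [Finsupp.smul_single, smul_eq_mul, mul_one])

theorem pr_ezc (A : List (X × Y) → ZMod 2) (B : List X → ZMod 2) (C : List Y → ZMod 2)
    (z : List X →₀ ZMod 2) (y : List Y →₀ ZMod 2)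
    (h : ∀ s ∈ z.support, ∀ t ∈ y.support, pr A (ez s t) = B s * C t) :
    pr A (ezc z y) = pr B z * pr C y := by
  rw [ezc_sum, map_sum, pr_apply B, pr_apply C, Finsupp.sum, Finsupp.sum, Finset.sum_mul_sum]
  refine Finset.sum_congr rfl (fun s hs => ?_)
  rw [map_sum]
  refine Finset.sum_congr rfl (fun t ht => ?_)
  rw [map_smul, h s hs t ht, smul_eq_mul]
  ring

theorem bd_ezc (z : List X →₀ ZMod 2) (y : List Y →₀ ZMod 2)
    (h : ∀ s ∈ z.support, ∀ t ∈ y.support,
      bd (ez s t) = ezc (bdL s) (single t 1) + ezc (single s 1) (bdL t)) :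
    bd (ezc z y) = ezc (bd z) y + ezc z (bd y) := by
  have h1 : ezc (bd z) y = ∑ s ∈ z.support, ∑ t ∈ y.support,
      (z s * y t) • ezc (bdL s) (single t 1) := by
    conv_lhs => rw [bd_sum, self_sum y]
    rw [LinearMap.map_sum₂]
    refine Finset.sum_congr rfl (fun s _ => ?_)
    rw [LinearMap.map_smul₂, map_sum, Finset.smul_sum]
    exact Finset.sum_congr rfl (fun t _ => by rw [map_smul, smul_smul])
  have h2 : ezc z (bd y) = ∑ s ∈ z.support, ∑ t ∈ y.support,
      (z s * y t) • ezc (single s 1) (bdL t) := by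
    conv_lhs => rw [bd_sum, self_sum z]
    rw [LinearMap.map_sum₂]
    refine Finset.sum_congr rfl (fun s _ => ?_)
    rw [LinearMap.map_smul₂, map_sum, Finset.smul_sum]
    exact Finset.sum_congr rfl (fun t _ => by rw [map_smul, smul_smul])
  rw [h1, h2, ezc_sum, map_sum, ← Finset.sum_add_distrib]
  refine Finset.sum_congr rfl (fun s hs => ?_)
  rw [map_sum, ← Finset.sum_add_distrib]
  refine Finset.sum_congr rfl (fun t ht => ?_)
  rw [map_smul, h s hs t ht, smul_add]

theorem t_prod (h1 : S_ezl) (h2 : S_eze) : S_prod := by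
  intro X Y h k z y hn hz hy
  refine ⟨fun u hu => ?_, fun u hu => ?_, ?_⟩
  · obtain ⟨s, hs, t, ht, h3⟩ := ezc_supp hu
    have h4 := h2.1 X Y s t u h3
    have h5 := hz s hs
    have h6 := hy t ht
    exact ⟨by omega, s, hs, t, ht, h4.2⟩
  · rw [bd_ezc z y] at hu
    · classical
      have h3 := Finsupp.support_add hu
      rw [Finset.mem_union] at h3
      rcases h3 with h3 | h3
      · obtain ⟨s, hs, t, ht, h4⟩ := ezc_supp h3
        exact Or.inl ⟨s, hs, t, ht, (h2.1 X Y s t u h4).2⟩
      · obtain ⟨s, hs, t, ht, h4⟩ := ezc_supp h3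
        exact Or.inr ⟨s, hs, t, ht, (h2.1 X Y s t u h4).2⟩
    · intro s hs t ht
      have h5 := hz s hs
      have h6 := hy t ht
      refine h1 X Y s t ?_ ?_ (by omega)
      · rintro rfl
        simp at h5
      · rintro rfl
        simp at h6
  · exact pr_ezc _ _ _ z y (fun s hs t ht => h2.2 X Y h k s t (hz s hs) (hy t ht))

end Pool.Agent.W304.DP
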