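import Pool.Agent.W304.DP.Eze

/-!
Project DP (helper710), subtask DP-TRI: the cochain identity behind SUP.
-/

set_option autoImplicit false

namespace Pool.Agent.W304.DP

open Pool.Agent.W710.DP Finsupp

variable {Z : Type}

theorem pr_add_fun (A B : List Z → ZMod 2) (z : List Z →₀ ZMod 2) :
    pr (fun t => A t + B t) z = pr A z + pr B z := by
  rw [pr_apply, pr_apply, pr_apply, Finsupp.sum, Finsupp.sum, Finsupp.sum,
    ← Finset.sum_add_distrib]
  exact Finset.sum_congr rfl (fun t _ => by ring)

theorem cob_nil (A : List Z → ZMod 2) : cob A [] = 0 := by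
  unfold cob
  rw [bdL, map_zero]

theorem cob_cons (A : List Z → ZMod 2) (x : Z) (t : List Z) :
    cob A (x :: t) = A t + cob (fun u => A (x :: u)) t := by
  unfold cob
  rw [bdL, map_add, pr_single, one_mul, pr_mapDomain]

theorem cob_one (A : List Z → ZMod 2) (x : Z) : cob A [x] = A [] := by
  rw [cob_cons, cob_nil, add_zero]

theorem cob_add (A B : List Z → ZMod 2) (t : List Z) :
    cob (fun u => A u + B u) t = cob A t + cob B t := by
  unfold cob
  exact pr_add_fun A B _

theorem cob_smul (k : ZMod 2) (A : List Z → ZMod 2) (t : List Z) :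
    cob (fun u => k * A u) t = k * cob A t := by
  unfold cob
  exact pr_smul_fun k A _

theorem cob_congr (t : List Z) : ∀ {A B : List Z → ZMod 2},
    (∀ u, u.length + 1 = t.length → A u = B u) → cob A t = cob B t := by
  induction t with
  | nil =>
    intro A B _
    rw [cob_nil, cob_nil]
  | cons x t ih =>
    intro A B h
    rw [cob_cons, cob_cons, h t (by simp)]
    congr 1
    exact ih (fun u hu => h (x :: u) (by simp only [List.length_cons]; omega))

theorem cob_cob (t : List Z) : ∀ A : List Z → ZMod 2, cob (cob A) t = 0 := by
  induction t with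
  | nil =>
    intro A
    rw [cob_nil]
  | cons x t ih =>
    intro A
    rw [cob_cons]
    have h : (fun u => cob A (x :: u)) = fun u => A u + cob (fun v => A (x :: v)) u :=
      funext (fun u => cob_cons A x u)
    rw [h, cob_add, ih, add_zero, CharTwo.add_self_eq_zero]

/-- cup product -/
def cup (p : ℕ) (A B : List Z → ZMod 2) (t : List Z) : ZMod 2 := A (t.take (p + 1)) * B (t.drop p)

theorem cob_cup (p : ℕ) (B : List Z → ZMod 2) : ∀ (A : List Z → ZMod 2) (t : List Z),
    p + 2 ≤ t.length → cob (cup p A B) t =
      cob A (t.take (p + 2)) * B (t.drop (p + 1)) + A (t.take (p + 1)) * cob B (t.drop p) := by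
  induction p with
  | zero =>
    intro A t ht
    rcases t with _ | ⟨x, _ | ⟨y, t⟩⟩
    · simp at ht
    · simp at ht
    · rw [cob_cons]
      have h : (fun u => cup 0 A B (x :: u)) = fun u => A [x] * B (x :: u) := by
        funext u
        simp [cup]
      rw [h, cob_smul]
      have h1 : cob A ((x :: y :: t).take (0 + 2)) = A [y] + A [x] := by
        simp only [zero_add, List.take_succ_cons, List.take_zero]
        rw [cob_cons, cob_one]
      have h2 : cob B ((x :: y :: t).drop 0) = B (y :: t) + cob (fun u => B (x :: u)) (y :: t) := by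
        rw [List.drop_zero, cob_cons]
      rw [h1, h2]
      simp only [cup, zero_add, List.take_succ_cons, List.take_zero, List.drop_zero,
        List.drop_succ_cons]
      have h0 : (2 : ZMod 2) = 0 := rfl
      linear_combination (-A [x] * B (y :: t)) * h0
  | succ p ih =>
    intro A t ht
    rcases t with _ | ⟨x, t⟩
    · simp at ht
    · rw [cob_cons]
      have h : (fun u => cup (p + 1) A B (x :: u)) = cup p (fun v => A (x :: v)) B := by
        funext u
        simp [cup]
      rw [h, ih _ _ (by simp only [List.length_cons] at ht; omega)]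
      have h1 : cob A ((x :: t).take (p + 1 + 2)) =
          A (t.take (p + 2)) + cob (fun v => A (x :: v)) (t.take (p + 2)) := by
        rw [List.take_succ_cons, cob_cons]
      rw [h1]
      simp only [cup, List.take_succ_cons, List.drop_succ_cons]
      ring

theorem ev_one (f : Z → ZMod 2) (x y : Z) (t : List Z) : ev [f] (x :: y :: t) = f x + f y := by
  rw [ev_cons, ev_nil, mul_one]

theorem cob_ev_one (f : Z → ZMod 2) (x y w : Z) : cob (ev [f]) [x, y, w] = 0 := by
  rw [cob_cons, cob_cons, cob_one, ev_one, ev_one, ev_one]
  have h0 : (2 : ZMod 2) = 0 := rfl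
  linear_combination (f x + f y + f w) * h0

theorem cob_ev (hs : List (Z → ZMod 2)) : ∀ t : List Z, t.length = hs.length + 2 →
    cob (ev hs) t = 0 := by
  induction hs with
  | nil =>
    intro t ht
    rcases t with _ | ⟨x, _ | ⟨y, _ | ⟨w, t⟩⟩⟩
    · simp at ht
    · simp at ht
    · rw [cob_cons, cob_one, ev_nil, ev_nil]
      rfl
    · simp at ht
  | cons f hs ih =>
    intro t ht
    have h1 : cob (ev (f :: hs)) t = cob (cup 1 (ev [f]) (ev hs)) t := by
      apply cob_congr
      intro u hu
      rcases u with _ | ⟨x, _ | ⟨y, u⟩⟩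
      · simp only [List.length_nil, List.length_cons] at hu ht
        omega
      · simp only [List.length_nil, List.length_cons] at hu ht
        omega
      · simp only [cup, List.take_succ_cons, List.take_zero, List.drop_succ_cons, List.drop_zero]
        rw [ev_one, ev_cons]
    rw [h1]
    rcases t with _ | ⟨x, _ | ⟨y, _ | ⟨w, t⟩⟩⟩
    · simp at ht
    · simp at ht
    · simp at ht
    · rw [cob_cup 1 _ _ _ (by simp)]
      simp only [List.take_succ_cons, List.take_zero, List.drop_succ_cons, List.drop_zero]
      rw [cob_ev_one, ih (y :: w :: t) (by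
        simp only [List.length_cons] at ht ⊢
        omega)]
      ring

theorem ev_append (k : List (Z → ZMod 2)) (m : Z → ZMod 2) : ∀ (h : List (Z → ZMod 2))
    (t : List Z), h.length + 2 ≤ t.length → ev (h ++ m :: k) t =
      ev h (t.take (h.length + 1)) * ev [m] (t.drop h.length) * ev k (t.drop (h.length + 1)) := by
  intro h
  induction h with
  | nil =>
    intro t ht
    rcases t with _ | ⟨x, _ | ⟨y, t⟩⟩
    · simp at ht
    · simp at ht
    · simp only [List.nil_append, List.length_nil, List.drop_zero, zero_add, List.drop_succ_cons]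
      rw [ev_nil, ev_one, ev_cons, one_mul]
  | cons f h ih =>
    intro t ht
    rcases t with _ | ⟨x, _ | ⟨y, t⟩⟩
    · simp at ht
    · simp at ht
    · simp only [List.length_cons] at ht
      rw [List.cons_append, ev_cons, ih (y :: t) (by simp only [List.length_cons]; omega)]
      simp only [List.length_cons, List.take_succ_cons, List.drop_succ_cons]
      rw [ev_cons]
      ring

theorem pr_bd (A : List Z → ZMod 2) (z : List Z →₀ ZMod 2) : pr A (bd z) = pr (cob A) z := by
  unfold bd
  rw [Finsupp.linearCombination_apply, Finsupp.sum, map_sum, pr_apply, Finsupp.sum]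
  refine Finset.sum_congr rfl (fun t _ => ?_)
  rw [map_smul, smul_eq_mul]
  rfl

theorem ev_one_take (f : Z → ZMod 2) (t : List Z) : ev [f] (t.take 2) = ev [f] t := by
  rcases t with _ | ⟨x, _ | ⟨y, t⟩⟩
  · rfl
  · rfl
  · simp only [List.take_succ_cons, List.take_zero]
    rw [ev_one, ev_one]

theorem cob_ev_one' (f : Z → ZMod 2) (t : List Z) (ht : 3 ≤ t.length) :
    cob (ev [f]) (t.take 3) = 0 := by
  rcases t with _ | ⟨x, _ | ⟨y, _ | ⟨w, t⟩⟩⟩
  · simp at ht
  · simp at ht
  · simp at ht
  · exact cob_ev_one f x y w

/-- `f` times a cochain, through the first two points -/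
theorem cob_one_cup (f : Z → ZMod 2) (W : List Z → ZMod 2) (s : List Z) (hs : 3 ≤ s.length) :
    cob (fun t => ev [f] t * W (t.drop 1)) s = ev [f] s * cob W (s.drop 1) := by
  have h1 : (fun t => ev [f] t * W (t.drop 1)) = cup 1 (ev [f]) W := by
    funext t
    simp only [cup]
    rw [ev_one_take]
  rw [h1, cob_cup 1 _ _ _ hs, cob_ev_one' f s hs, ev_one_take]
  ring

theorem cob_u0_cup (f : Z → ZMod 2) (W : List Z → ZMod 2) (s : List Z) (hs : 2 ≤ s.length)
    (hW : cob W s = 0) :
    cob (fun t => u0 f t * W t) s = ev [f] s * W (s.drop 1) := by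
  have h1 : (fun t => u0 f t * W t) = cup 0 (u0 f) W := by
    funext t
    rcases t with _ | ⟨x, t⟩
    · simp [cup, u0]
    · simp [cup, u0]
  rw [h1, cob_cup 0 _ _ _ hs]
  rcases s with _ | ⟨x, _ | ⟨y, s⟩⟩
  · simp at hs
  · simp at hs
  · simp only [zero_add, List.take_succ_cons, List.take_zero, List.drop_succ_cons,
      List.drop_zero]
    rw [hW, cob_cons, cob_one, ev_one]
    simp only [u0]
    ring

theorem t_tri : S_tri := by
  intro Z h k m g η θ z hh hk hz
  rw [pr_bd, ← pr_add_fun]
  apply pr_congr
  intro t ht
  have hl := hz t ht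
  have hk1 : 1 ≤ k.length := by
    rcases k with _ | ⟨a, k⟩
    · exact absurd rfl hk
    · simp
  have hh1 : 1 ≤ h.length := by
    rcases h with _ | ⟨a, h⟩
    · exact absurd rfl hh
    · simp
  -- the three coboundaries
  have c1 : cob (fun t => ev h (t.take (h.length + 1)) * u0 (fun p => m p + g p) (t.drop h.length) *
          ev k (t.drop h.length)) t = ev h (t.take (h.length + 1)) *
          ((ev [m] (t.drop h.length) + ev [g] (t.drop h.length)) *
            ev k (t.drop (h.length + 1))) := by
    have e : (fun t : List Z => ev h (t.take (h.length + 1)) *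
        u0 (fun p => m p + g p) (t.drop h.length) * ev k (t.drop h.length)) =
        cup h.length (ev h) (fun s => u0 (fun p => m p + g p) s * ev k s) := by
      funext s
      simp only [cup]
      ring
    rw [e, cob_cup _ _ _ _ (by omega), cob_ev h _ (by rw [List.length_take]; omega), zero_mul,
      zero_add, cob_u0_cup _ _ _ (by rw [List.length_drop]; omega)
        (cob_ev k _ (by rw [List.length_drop]; omega)), List.drop_drop]
    congr 2
    rcases h3 : t.drop h.length with _ | ⟨x, _ | ⟨y, s⟩⟩
    · have := congrArg List.length h3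
      rw [List.length_drop] at this
      simp only [List.length_nil] at this
      omega
    · have := congrArg List.length h3
      rw [List.length_drop] at this
      simp only [List.length_cons, List.length_nil] at this
      omega
    · rw [ev_one, ev_one, ev_one]
      ring
  have c2 : cob (fun t => ev h (t.take (h.length + 1)) * ev [g] (t.drop h.length) *
      θ (t.drop (h.length + 1))) t = ev h (t.take (h.length + 1)) *
        (ev [g] (t.drop h.length) * cob θ (t.drop (h.length + 1))) := by
    have e : (fun t : List Z => ev h (t.take (h.length + 1)) * ev [g] (t.drop h.length) *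
        θ (t.drop (h.length + 1))) =
        cup h.length (ev h) (fun s => ev [g] s * θ (s.drop 1)) := by
      funext s
      simp only [cup]
      rw [List.drop_drop]
      ring
    rw [e, cob_cup _ _ _ _ (by omega), cob_ev h _ (by rw [List.length_take]; omega), zero_mul,
      zero_add, cob_one_cup _ _ _ (by rw [List.length_drop]; omega), List.drop_drop]
  have c3 : cob (fun t => η (t.take h.length) * ev [g] (t.drop (h.length - 1)) *
          (ev k (t.drop h.length) + cob θ (t.drop h.length))) t =
      cob η (t.take (h.length + 1)) * (ev [g] (t.drop h.length) *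
        (ev k (t.drop (h.length + 1)) + cob θ (t.drop (h.length + 1)))) := by
    obtain ⟨n, hn⟩ : ∃ n, h.length = n + 1 := ⟨h.length - 1, by omega⟩
    rw [hn]
    have e : (fun t : List Z => η (t.take (n + 1)) * ev [g] (t.drop (n + 1 - 1)) *
          (ev k (t.drop (n + 1)) + cob θ (t.drop (n + 1)))) =
        cup n η (fun s => ev [g] s * (fun v => ev k v + cob θ v) (s.drop 1)) := by
      funext s
      simp only [cup, Nat.add_sub_cancel]
      rw [List.drop_drop]
      ring
    have hW : cob (fun v => ev k v + cob θ v) ((t.drop n).drop 1) = 0 := by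
      rw [cob_add, cob_cob, cob_ev k, add_zero]
      rw [List.length_drop, List.length_drop]
      omega
    rw [e, cob_cup _ _ _ _ (by omega), cob_one_cup g (fun v => ev k v + cob θ v) _
      (by rw [List.length_drop]; omega), hW, List.drop_drop]
    ring
  rw [cob_add, cob_add, c1, c2, c3, ev_append k m h t (by omega)]
  have h0 : (2 : ZMod 2) = 0 := rfl
  generalize ev h (List.take (h.length + 1) t) = a1
  generalize ev [m] (List.drop h.length t) = a2
  generalize ev [g] (List.drop h.length t) = a3
  generalize ev k (List.drop (h.length + 1) t) = a4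
  generalize cob θ (List.drop (h.length + 1) t) = a5
  generalize cob η (List.take (h.length + 1) t) = a6
  linear_combination (-(a1 * a3 * a4 + a1 * a3 * a5 + a6 * a3 * a4 + a6 * a3 * a5)) * h0

end Pool.Agent.W304.DP
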